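import Mathlib
import Pool.Agent.MP_d221f7_co.Bridge

/-! The toppling numbers of the complete graph are `c n² + O(n)` for one constant `c`. -/

set_option autoImplicit false

namespace Pool.Agent.Results.MP_d221f7_co.Limit

open Pool.Agent.MP_d221f7_co

theorem result : ∃ c : ℝ, ∀ n : ℕ, 2 ≤ n → ∀ maxFirst : Bool, ∃ t : ℕ,
    IsLeast {k : ℕ | Within (⊤ : SimpleGraph (Fin n)) k maxFirst 0} t ∧
      |(t : ℝ) - c * (n : ℝ) ^ 2| ≤ 4 * n + 14 := by
  obtain ⟨c, hc⟩ := limit
  refine ⟨c, fun n hn x => ⟨val n x, ?_, hc n (by omega) x⟩⟩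
  simpa only [within_zero hn] using val_least (n := n) (by omega) x

end Pool.Agent.Results.MP_d221f7_co.Limit
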