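import Mathlib
import Pool.Agent.MP_d221f7_co.E4

/-! A lower bound for the toppling numbers of the complete graph. -/

set_option autoImplicit false

namespace Pool.Agent.Results.MP_d221f7_co.Lower

open Pool.Agent.MP_d221f7_co

theorem result : ∀ n : ℕ, 2 ≤ n → ∀ maxFirst : Bool, ∃ t : ℕ,
    IsLeast {k : ℕ | Within (⊤ : SimpleGraph (Fin n)) k maxFirst 0} t ∧
      0.597 * (n : ℝ) ^ 2 - 4 * n - 14 ≤ t := by
  intro n hn x
  refine ⟨val n x, by simpa only [within_zero hn] using val_least (n := n) (by omega) x, ?_⟩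
  have h1 := cauchy (n := n) (m := 30000) (by omega) (by norm_num) x true
  have h2 : (537485000 : ℝ) ≤ val 30000 true := by exact_mod_cast val_low_num
  have h3 : (0 : ℝ) < (n : ℝ) ^ 2 := by
    have : (0 : ℝ) < n := by exact_mod_cast (show 0 < n by omega)
    positivity
  have h4 : 0.597 ≤ ((val 30000 true : ℝ) - (4 * (30000 : ℕ) + 14)) / ((30000 : ℕ) : ℝ) ^ 2 := by
    rw [le_div_iff₀ (by positivity)]
    push_cast; linarith
  have h5 := (le_div_iff₀ h3).1 (h4.trans h1)
  linarith

end Pool.Agent.Results.MP_d221f7_co.Lower
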